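import Pool.Agent.U635.CtH

/-!
# Contact points of minimisers of the packing densities `δ_L` and `δ_{L*}`

Let `K` be a convex body and let `x` be an extreme point of `K` such that the bodies `K'` with
`K \ ball x ε ⊆ K' ⊆ K` do not have a smaller density (for instance, let `K` be a minimiser). Then
there is a densest packing of the class in which `K` touches another member at `x`. So a minimiser is
the closed convex hull of its contact points in densest packings. If there are only countably many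
densest packings, then the segments in the boundary are dense in it, and the extreme points in a
dense open set of them lie locally in one planar contact set `K ∩ K'`. If there are only finitely many
densest packings, then `K` is the convex hull of finitely many of the sets `K ∩ K'`. A strictly convex
minimiser has uncountably many densest packings.
-/

set_option autoImplicit false

namespace Pool.Agent.Results.MP_3d065d_co.ContactPoints

open MeasureTheory
open Pool.Agent.TH219.DL Pool.Agent.U635.Ct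

/-- the indices of the members different from `K` of the packings in `P` which contain `K` -/
def Others (P : Set (Set (Bool × (Fin 3 → ℝ)))) : Set (Bool × (Fin 3 → ℝ)) :=
  {p | ∃ S ∈ P, (false, (0 : Fin 3 → ℝ)) ∈ S ∧ p ∈ S ∧ p ≠ (false, 0)}

/-- `A` lies in a supporting plane of `K` -/
def InPlane (K A : Set (Fin 3 → ℝ)) : Prop :=
  ∃ (f : (Fin 3 → ℝ) →L[ℝ] ℝ) (s : ℝ), f ≠ 0 ∧ (∀ y ∈ K, f y ≤ s) ∧ ∀ y ∈ A, f y = s

/-- if `P` is countable: a nondegenerate segment in the boundary of `K` meets `O` if the boundary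
meets `O`, and if there are extreme points in `O`, then for some smaller open set the extreme points in
it lie in one planar set `K ∩ K'`, `K'` another member -/
def Flat (P : Set (Set (Bool × (Fin 3 → ℝ)))) (K O : Set (Fin 3 → ℝ)) : Prop :=
  P.Countable →
    ((O ∩ frontier K).Nonempty → ∃ y z : Fin 3 → ℝ, y ≠ z ∧ segment ℝ y z ⊆ frontier K ∧
      (segment ℝ y z ∩ O).Nonempty) ∧
    ((O ∩ K.extremePoints ℝ).Nonempty → ∃ O' : Set (Fin 3 → ℝ), IsOpen O' ∧ O' ⊆ O ∧
      (O' ∩ K.extremePoints ℝ).Nonempty ∧ ∃ p ∈ Others P,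
        O' ∩ K.extremePoints ℝ ⊆ K ∩ mem K p ∧ InPlane K (K ∩ mem K p))

/-- the conclusions for a minimiser `K` and the collection `P` of its densest packings -/
def Spans (P : Set (Set (Bool × (Fin 3 → ℝ)))) (K : Set (Fin 3 → ℝ)) : Prop :=
  K.extremePoints ℝ ⊆ Con P K ∧ K = closure (convexHull ℝ (Con P K)) ∧
  (∀ O : Set (Fin 3 → ℝ), IsOpen O → Flat P K O) ∧
  (StrictConvex ℝ K → ¬ P.Countable) ∧
  (P.Finite → ∃ T : Set (Bool × (Fin 3 → ℝ)), T.Finite ∧ T ⊆ Others P ∧
    (∀ p ∈ T, InPlane K (K ∩ mem K p)) ∧ K = convexHull ℝ (⋃ p ∈ T, K ∩ mem K p))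

theorem flat_of {K : Set (Fin 3 → ℝ)} (hK : Body K) {P : Set (Set (Bool × (Fin 3 → ℝ)))}
    (hP : ∀ S ∈ P, S.Countable ∧ IsPack K S) {O : Set (Fin 3 → ℝ)} (hO : IsOpen O)
    (h : ∀ x ∈ K.extremePoints ℝ, x ∈ O → x ∈ Con P K) : Flat P K O := by
  intro hc
  refine ⟨fun hne => seg_dense hK hP hc hO hne h, fun hne => ?_⟩
  obtain ⟨O', p, f, s, h1, h2, h3, h4, h5, h6, h7, h8⟩ := loc_planar hK hP hc hO hne h
  exact ⟨O', h1, h2, h3, p, h5, h4, f, s, h6, h7, h8⟩

theorem spans_of {K : Set (Fin 3 → ℝ)} (hK : Body K) {P : Set (Set (Bool × (Fin 3 → ℝ)))}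
    (hP : ∀ S ∈ P, S.Countable ∧ IsPack K S)
    (hP' : ∀ S ∈ P, {p | p ∈ S ∧ (K ∩ mem K p).Nonempty}.Finite ∧ IsPack K S)
    (h : ∀ x ∈ K.extremePoints ℝ, x ∈ Con P K) : Spans P K := by
  refine ⟨h, hull_con hK h, fun O hO => flat_of hK hP hO fun x hx _ => h x hx,
    fun hs => uncountable_dense hK hs hP h, fun hf => ?_⟩
  obtain ⟨T, h1, h2, h3⟩ := fin_hull hK hf hP' h
  exact ⟨T, h1, fun p hp => (h2 p hp).1, fun p hp => (h2 p hp).2, h3⟩

theorem result :
    -- (1) extreme points and contact points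
    (∀ K : Set (Fin 3 → ℝ), Body K → ∀ x ∈ K.extremePoints ℝ,
      (LocMin dL K x → x ∈ Con (DenseL K) K) ∧ (LocMin dLs K x → x ∈ Con (DenseLs K) K)) ∧
    -- (2) local minimisers with countably many densest packings
    (∀ K : Set (Fin 3 → ℝ), Body K → ∀ O : Set (Fin 3 → ℝ), IsOpen O →
      ((∀ x ∈ K.extremePoints ℝ, x ∈ O → LocMin dL K x) → Flat (DenseL K) K O) ∧
      ((∀ x ∈ K.extremePoints ℝ, x ∈ O → LocMin dLs K x) → Flat (DenseLs K) K O)) ∧
    -- (3) minimisers
    (∀ K : Set (Fin 3 → ℝ), Body K →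
      (dL K = mn dL → Spans (DenseL K) K) ∧ (dLs K = mn dLs → Spans (DenseLs K) K)) := by
  have hL : ∀ K : Set (Fin 3 → ℝ), ∀ S ∈ DenseL K, S.Countable ∧ IsPack K S := by
    rintro K S ⟨b, hb, rfl, hp, -⟩
    exact ⟨famL_countable b, hp⟩
  have hLs : ∀ K : Set (Fin 3 → ℝ), ∀ S ∈ DenseLs K, S.Countable ∧ IsPack K S := by
    rintro K S ⟨v, b, hb, rfl, hp, -⟩
    exact ⟨famLs_countable v b, hp⟩
  refine ⟨fun K hK x hx => ⟨contact_L hK hx, contact_Ls hK hx⟩, fun K hK O hO => ⟨fun h => ?_,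
    fun h => ?_⟩, fun K hK => ⟨fun h => ?_, fun h => ?_⟩⟩
  · exact flat_of hK (hL K) hO fun x hx hxO => contact_L hK hx (h x hx hxO)
  · exact flat_of hK (hLs K) hO fun x hx hxO => contact_Ls hK hx (h x hx hxO)
  · refine spans_of hK (hL K) ?_ fun x hx => contact_L hK hx (mn_loc h x)
    rintro S ⟨b, hb, rfl, hp, -⟩
    exact ⟨fin_L hK hb, hp⟩
  · refine spans_of hK (hLs K) ?_ fun x hx => contact_Ls hK hx (mn_loc h x)
    rintro S ⟨v, b, hb, rfl, hp, -⟩
    exact ⟨fin_Ls hK hb, hp⟩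

end Pool.Agent.Results.MP_3d065d_co.ContactPoints
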