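import Pool.Agent.U635.DiffC
import Pool.Agent.H349R2.Tet.Final3

/-!
# Packing densities of a convex body in terms of its difference body and its asymmetry

Let `K` be a convex body in `ℝ³` with `-(K - c) ⊆ α (K - c)` for some point `c`. The mixed volumes
`V(K, K, -K)` and `V(K, -K, -K)` are at most `min(3, α) Vol(K)`, so `Vol(K - K) ≤ (2 + 6 min(3, α)) Vol(K)`,
and `δ_X(K) ≥ 4 / (1 + 3 min(3, α)) δ_X(DK)` for `X = L, T`. Hence a body whose difference body has a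
large packing density is not a minimiser. If `DK` is an ellipsoid (affine images of bodies of constant
width), then `α` is at most `J / (1 - J)`, `J = √(3/8)`, by the theorem of Jung, and `δ_L(K) > 0.516`.
-/

set_option autoImplicit false

namespace Pool.Agent.Results.MP_3d065d_co.DifferenceBodies

open MeasureTheory
open Pool.Agent.TH219.DL Pool.Agent.U635.Diff
open Pool.Agent.H349R2.Tet (Bl near_tetra T_compact)

theorem tet_indep : AffineIndependent ℝ
    (![![0, 0, 0], ![1, 0, 0], ![0, 1, 0], ![0, 0, 1]] : Fin 4 → (Fin 3 → ℝ)) := by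
  rw [affineIndependent_iff_of_fintype]
  intro w hw h
  rw [Finset.univ.weightedVSub_eq_linear_combination hw] at h
  have h0 := congrFun h 0
  have h1 := congrFun h 1
  have h2 := congrFun h 2
  simp [Fin.sum_univ_four] at h0 h1 h2
  rw [Fin.sum_univ_four] at hw
  intro i
  fin_cases i
  · show w 0 = 0
    linarith
  · exact h0
  · exact h1
  · exact h2

theorem mnT : mn dT ≤ ENNReal.ofReal (2 / 5) := (iInf₂_le Pool.Agent.H349R2.Tet.T T_body).trans dT_T

theorem mnLT : mn dL ≤ mn dT := iInf₂_mono fun K _ => dL_le_dT K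

theorem mnL : mn dL ≤ ENNReal.ofReal (18 / 49 * (1 - 1 / 10 ^ 17)) := by
  obtain ⟨A, h1, h2, h3, -, -, h4⟩ := near_tetra _ tet_indep (1 / 10 ^ 15) (by norm_num) le_rfl
  have hA : Body A := ⟨h1, h2, h3⟩
  refine (iInf₂_le A hA).trans ?_
  rw [dL_eq]
  refine h4.trans (ENNReal.ofReal_le_ofReal ?_)
  norm_num

theorem four_le {α : ℝ} (hα : 1 ≤ α) : 4 / (1 + 3 * α) ≤ 4 / (1 + 3 * min 3 α) := by
  have h6 : 0 < min 3 α := lt_min (by norm_num) (by linarith)
  exact div_le_div_of_nonneg_left (by norm_num) (by linarith) (by linarith [min_le_right (3 : ℝ) α])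

/-- `DB K = DK`; `AsymLe K α`: `-(K - c) ⊆ α (K - c)` for some point `c`;
`cE l = 0.7404 · 4 (1 - l √(3/8)) / (1 + 2 l √(3/8)) / l³`. -/
theorem result :
    -- (1) the densities of `K` and of its difference body
    (∀ K : Set (Fin 3 → ℝ), Body K → AsymLe K 3 ∧ ∀ α : ℝ, 1 ≤ α → AsymLe K α →
      ENNReal.ofReal (4 / (1 + 3 * min 3 α)) * dL (DB K) ≤ dL K ∧
      ENNReal.ofReal (4 / (1 + 3 * min 3 α)) * dT (DB K) ≤ dT K) ∧
    -- (2) bodies which are not minimisers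
    (∀ K : Set (Fin 3 → ℝ), Body K → ∀ α : ℝ, 1 ≤ α → AsymLe K α →
      (ENNReal.ofReal ((1 + 3 * α) / 10) < dL (DB K) → mn dL < dL K ∧ mn dT < dT K) ∧
      (ENNReal.ofReal ((1 + 3 * α) / 10) < dT (DB K) → mn dT < dT K)) ∧
    -- (3) the difference body of a minimiser
    (∀ K : Set (Fin 3 → ℝ), Body K → dL K = mn dL →
      dL (DB K) ≤ ENNReal.ofReal (45 / 49 * (1 - 1 / 10 ^ 17)) ∧
      ∀ α : ℝ, 1 ≤ α → AsymLe K α →
        dL (DB K) ≤ ENNReal.ofReal (9 / 98 * (1 + 3 * α) * (1 - 1 / 10 ^ 17))) ∧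
    -- (4) difference bodies close to an ellipsoid
    (∀ K K₁ : Set (Fin 3 → ℝ), Body K → Body K₁ → K ⊆ K₁ → ∀ m : ℝ, 0 < m →
      volume K₁ ≤ ENNReal.ofReal m * volume K →
      ∀ (L : (Fin 3 → ℝ) ≃ₗ[ℝ] (Fin 3 → ℝ)) (l : ℝ), 1 ≤ l → l * √(3 / 8) < 1 →
        L '' Bl 1 ⊆ DB K₁ → DB K₁ ⊆ L '' Bl l →
          ENNReal.ofReal (cE l / m) ≤ dL K ∧ (2 / 5 < cE l / m → mn dL < dL K ∧ mn dT < dT K)) ∧
    -- (5) affine images of bodies of constant width and the bodies near to them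
    (∀ K K₁ : Set (Fin 3 → ℝ), Body K → Body K₁ → K ⊆ K₁ →
      volume K₁ ≤ ENNReal.ofReal 1.29 * volume K →
      (∃ L : (Fin 3 → ℝ) ≃ₗ[ℝ] (Fin 3 → ℝ), DB K₁ = L '' Bl 1) →
        mn dL < dL K ∧ mn dT < dT K ∧ (K = K₁ → ENNReal.ofReal 0.516 < dL K)) ∧
    0.516 < cE 1 ∧ 2 / 5 < cE 1.049 ∧ mn dL ≤ mn dT ∧ mn dT ≤ ENNReal.ofReal (2 / 5) := by
  have hmin : ∀ K : Set (Fin 3 → ℝ), ∀ x : ℝ, 2 / 5 < x → ENNReal.ofReal x ≤ dL K →
      mn dL < dL K ∧ mn dT < dT K := by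
    intro K x hx h
    have h3 : mn dT < dL K :=
      mnT.trans_lt (((ENNReal.ofReal_lt_ofReal_iff (by linarith)).2 hx).trans_le h)
    exact ⟨mnLT.trans_lt h3, h3.trans_le (dL_le_dT K)⟩
  have hmul : ∀ α : ℝ, 1 ≤ α → ∀ d : ENNReal, ENNReal.ofReal ((1 + 3 * α) / 10) < d →
      ENNReal.ofReal (2 / 5) < ENNReal.ofReal (4 / (1 + 3 * min 3 α)) * d := by
    intro α hα d hd
    have h1 := four_le hα
    have h0 : 0 < 4 / (1 + 3 * α) := by positivity
    have h2 : ENNReal.ofReal (2 / 5) = ENNReal.ofReal (4 / (1 + 3 * α)) * ENNReal.ofReal ((1 + 3 * α) / 10) := by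
      rw [← ENNReal.ofReal_mul h0.le]
      congr 1
      field_simp
      norm_num
    rw [h2]
    calc ENNReal.ofReal (4 / (1 + 3 * α)) * ENNReal.ofReal ((1 + 3 * α) / 10)
        < ENNReal.ofReal (4 / (1 + 3 * α)) * d := by
          refine (ENNReal.mul_lt_mul_iff_right ?_ ENNReal.ofReal_ne_top).2 hd
          rw [ne_eq, ENNReal.ofReal_eq_zero, not_le]
          exact h0
      _ ≤ _ := by gcongr
  have h4 : ∀ K K₁ : Set (Fin 3 → ℝ), Body K → Body K₁ → K ⊆ K₁ → ∀ m : ℝ, 0 < m →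
      volume K₁ ≤ ENNReal.ofReal m * volume K →
      ∀ (L : (Fin 3 → ℝ) ≃ₗ[ℝ] (Fin 3 → ℝ)) (l : ℝ), 1 ≤ l → l * √(3 / 8) < 1 →
        L '' Bl 1 ⊆ DB K₁ → DB K₁ ⊆ L '' Bl l →
          ENNReal.ofReal (cE l / m) ≤ dL K ∧ (2 / 5 < cE l / m → mn dL < dL K ∧ mn dT < dT K) := by
    intro K K₁ hK hK₁ hsub m hm hv L l hl hl1 h1 h2
    have h3 := ell_low hK hK₁ hsub hm hv L hl hl1 h1 h2
    exact ⟨h3, fun h => hmin K _ h h3⟩
  refine ⟨fun K hK => ⟨asym_three hK, fun α hα hA => ⟨dL_DB hK hα hA, dT_DB hK hα hA⟩⟩,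
    fun K hK α hα hA => ⟨fun h => ?_, fun h => ?_⟩, fun K hK hm => ?_, h4, ?_,
    cE_one, cE_far, mnLT, mnT⟩
  · have h1 := hmul α hα _ h
    have h3 : mn dT < dL K := (mnT.trans_lt h1).trans_le (dL_DB hK hα hA)
    exact ⟨mnLT.trans_lt h3, h3.trans_le (dL_le_dT K)⟩
  · exact (mnT.trans_lt (hmul α hα _ h)).trans_le (dT_DB hK hα hA)
  · have key : ∀ α : ℝ, 1 ≤ α → AsymLe K α →
        dL (DB K) ≤ ENNReal.ofReal (9 / 98 * (1 + 3 * α) * (1 - 1 / 10 ^ 17)) := by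
      intro α hα hA
      have h1 := (dL_DB hK hα hA).trans (hm.le.trans mnL)
      have h0 : 0 < 4 / (1 + 3 * α) := by positivity
      have h2 : ENNReal.ofReal (4 / (1 + 3 * α)) * dL (DB K) ≤
          ENNReal.ofReal (18 / 49 * (1 - 1 / 10 ^ 17)) := by
        refine le_trans ?_ h1
        gcongr
        exact min_le_right _ _
      have h3 : ENNReal.ofReal (18 / 49 * (1 - 1 / 10 ^ 17)) = ENNReal.ofReal (4 / (1 + 3 * α)) *
          ENNReal.ofReal (9 / 98 * (1 + 3 * α) * (1 - 1 / 10 ^ 17)) := by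
        rw [← ENNReal.ofReal_mul h0.le]
        congr 1
        field_simp
        norm_num
      rw [h3] at h2
      refine (ENNReal.mul_le_mul_iff_right ?_ ENNReal.ofReal_ne_top).1 h2
      rw [ne_eq, ENNReal.ofReal_eq_zero, not_le]
      exact h0
    refine ⟨?_, key⟩
    have h := key 3 (by norm_num) (asym_three hK)
    convert h using 2
    norm_num
  · rintro K K₁ hK hK₁ hsub hv ⟨L, hL⟩
    have hJ := J_lt
    have h1 := h4 K K₁ hK hK₁ hsub 1.29 (by norm_num) hv L 1 le_rfl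
      (by rw [one_mul]; exact hJ.trans (by norm_num)) hL.ge hL.le
    have hc := cE_one
    have h2 := h1.2 (by
      rw [lt_div_iff₀ (by norm_num)]
      norm_num
      linarith)
    refine ⟨h2.1, h2.2, ?_⟩
    rintro rfl
    have h3 := h4 K K hK hK subset_rfl 1 one_pos (by simp) L 1 le_rfl
      (by rw [one_mul]; exact hJ.trans (by norm_num)) hL.ge hL.le
    rw [div_one] at h3
    exact ((ENNReal.ofReal_lt_ofReal_iff (by linarith)).2 hc).trans_le h3.1

end Pool.Agent.Results.MP_3d065d_co.DifferenceBodies
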