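import Pool.Agent.U338.HS.I

/-!
# Bodies with homothetic centrally symmetric sections do not minimise the lattice packing density

Let all sections of a convex body `K` parallel to a plane be homothetic to one centrally symmetric
planar convex body `S`, with centres on a line. Then `K` has a lattice packing of density at least
`√2 / 2 - 1 / 3 > 0.3737`, while `m_L < 18/49 < 0.3674`.

Proof: an affine map turns the parallelogram of least area circumscribed to `S` into the square
`[-1, 1]²`; then `S` contains the midpoints of its sides. For a circumscribed parallelogram `P` of `S`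
the sections of maximal size `R` are packed in the lattice of `R P`, and the next layer is placed over
the vertices of `R P`, at the height `z` = the largest height difference of two points of `K` whose
sizes have a sum at least `ρ R` (and at least half the height of `K`), `ρ` = the size of the vertices
of `P`. The determinant is `|P| R² z` and the volume of `K` is at least
`|S| R² z min (ρ² - ρ + 1, 2) / 3`. Let `a`, `b` be the support numbers of `S` in the directions
`(1, 1)`, `(-1, 1)`. Then `|S| ≥ a + b`, `a b ≥ 2`, and either `P = {|x + y| ≤ a, |x - y| ≤ b}` or the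
circumscribed parallelogram with the normals `(1, 0.46)`, `(-0.46, 1)` gives the bound.
-/

set_option autoImplicit false

namespace Pool.Agent.Results.MP_3d065d_co.HomotheticSections

open MeasureTheory
open scoped Pointwise
open Pool.Agent.TH219.DL Pool.Agent.U338.HS

/-- `SymBody S`: `S` is a compact convex set with interior points in the plane and `-S = S`.
`Sections S K'`: for every `t` the set of the `x` in the plane with `(t, x)` in `K'` is empty or `r • S` for
some `r ≥ 0`. `HomSections K`: `K` is the image of such a set `K'` under a bijective affine map.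
`AffRev K`: `K` is an affine image of a solid of revolution. -/
theorem result :
    (∀ K : Set (Fin 3 → ℝ), Body K → HomSections K →
      ENNReal.ofReal (√2 / 2 - 1 / 3) ≤ dL K ∧ mn dL < dL K) ∧
    (∀ K K₁ : Set (Fin 3 → ℝ), Body K → Body K₁ → HomSections K₁ → K ⊆ K₁ →
      ∀ l : ℝ, 0 < l → volume K₁ ≤ ENNReal.ofReal l * volume K →
        ENNReal.ofReal ((√2 / 2 - 1 / 3) / l) ≤ dL K ∧ (l ≤ 1.017 → mn dL < dL K)) ∧
    (∀ K : Set (Fin 3 → ℝ), Body K → Pool.Agent.U806.Rev.AffRev K → HomSections K) ∧
    mn dL < ENNReal.ofReal (18 / 49) ∧ (18 / 49 : ℝ) < 0.3674 ∧ 0.3737 < √2 / 2 - 1 / 3 := by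
  have hcst : cst = √2 / 2 - 1 / 3 := rfl
  have h0 := cst_gt
  have main : ∀ K K₁ : Set (Fin 3 → ℝ), Body K → Body K₁ → HomSections K₁ → K ⊆ K₁ →
      ∀ l : ℝ, 0 < l → volume K₁ ≤ ENNReal.ofReal l * volume K →
        ENNReal.ofReal ((√2 / 2 - 1 / 3) / l) ≤ dL K ∧ (l ≤ 1.017 → mn dL < dL K) := by
    intro K K₁ hK hK₁ hr hsub l hl hv
    have h1 := Pool.Agent.U338.HS.dens_low hK hK₁ hr hsub hl hv
    rw [← hcst]
    refine ⟨h1, fun hl' => ?_⟩
    have h2 : (18 / 49 : ℝ) < cst / l := by
      rw [lt_div_iff₀ hl]
      linarith
    exact mn_lt.trans (((ENNReal.ofReal_lt_ofReal_iff (by linarith)).2 h2).trans_le h1)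
  refine ⟨fun K hK hr => ?_, main, fun K hK hr => affRev hK hr, mn_lt, by norm_num,
    by rw [← hcst]; exact h0⟩
  have h1 := main K K hK hK hr subset_rfl 1 one_pos (by simp)
  have h2 := h1.2 (by norm_num)
  rw [div_one] at h1
  exact ⟨h1.1, h2⟩

end Pool.Agent.Results.MP_3d065d_co.HomotheticSections
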