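import Pool.Agent.U806.RevB

/-!
# Solids of revolution do not minimise the densities of translative and lattice packings

Every affine image of a convex solid of revolution has a lattice packing of density at least
`π (3 - √2) / 12 > 0.4151`, while `m_L ≤ m_T ≤ 2/5`. So the minima of `δ_L` and of `δ_T` are not
attained at such a body, nor at a body which fills more than `1 / 1.037` of one.

Proof: let `R` be the largest radius of the solid `K` and `h` its height. The lattice has square layers
of side `2 R` orthogonal to the axis, and consecutive layers are shifted to the deep holes and have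
distance `z`, where `z ≥ h / 2` is the largest number such that two points of `K` whose heights
differ by `z` have radii of sum at least `√2 R` (and `z = h / 2` if there are no such points). Its
determinant is `4 R² z`. The radii of these two points are at least `(√2 - 1) R`, so `K` contains one
or two frustums of total height at least `z` whose faces have radii `R` and at least `(√2 - 1) R`.
-/

set_option autoImplicit false

namespace Pool.Agent.Results.MP_3d065d_co.SolidsOfRevolution

open MeasureTheory
open Pool.Agent.TH219.DL Pool.Agent.U806.Rev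

/-- `IsRev K'`: with every point `y` the set `K'` contains every point with the same first coordinate
and the same distance from the first coordinate axis. `AffRev K`: `K` is the image of such a set under
a bijective affine map. -/
theorem result :
    (∀ K : Set (Fin 3 → ℝ), Body K → AffRev K →
      ENNReal.ofReal (Real.pi * (3 - √2) / 12) ≤ dL K ∧ mn dL < dL K ∧ mn dT < dT K) ∧
    (∀ K K₁ : Set (Fin 3 → ℝ), Body K → Body K₁ → AffRev K₁ → K ⊆ K₁ →
      ∀ l : ℝ, 0 < l → volume K₁ ≤ ENNReal.ofReal l * volume K →
        ENNReal.ofReal (Real.pi * (3 - √2) / (12 * l)) ≤ dL K ∧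
        (l ≤ 1.037 → mn dL < dL K ∧ mn dT < dT K)) ∧
    mn dL ≤ mn dT ∧ mn dT ≤ ENNReal.ofReal (2 / 5) ∧ 0.4151 < Real.pi * (3 - √2) / 12 := by
  have hcst : cst = Real.pi * (3 - √2) / 12 := rfl
  have h0 := cst_gt
  have hT : mn dT ≤ ENNReal.ofReal (2 / 5) := (iInf₂_le Pool.Agent.H349R2.Tet.T T_body).trans dT_T
  have hLT : mn dL ≤ mn dT := iInf₂_mono fun K _ => dL_le_dT K
  have main : ∀ K K₁ : Set (Fin 3 → ℝ), Body K → Body K₁ → AffRev K₁ → K ⊆ K₁ →
      ∀ l : ℝ, 0 < l → volume K₁ ≤ ENNReal.ofReal l * volume K →
        ENNReal.ofReal (Real.pi * (3 - √2) / (12 * l)) ≤ dL K ∧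
        (l ≤ 1.037 → mn dL < dL K ∧ mn dT < dT K) := by
    intro K K₁ hK hK₁ hr hsub l hl hv
    have h1 := dens_low hK hK₁ hr hsub hl hv
    have e : cst / l = Real.pi * (3 - √2) / (12 * l) := by
      rw [hcst, div_div]
    refine ⟨by rw [← e]; exact h1, fun hl' => ?_⟩
    have h2 : (2 / 5 : ℝ) < cst / l := by
      rw [lt_div_iff₀ hl]
      linarith
    have h3 : mn dT < dL K := hT.trans_lt (((ENNReal.ofReal_lt_ofReal_iff (by linarith)).2 h2).trans_le h1)
    exact ⟨hLT.trans_lt h3, h3.trans_le (dL_le_dT K)⟩
  refine ⟨fun K hK hr => ?_, main, hLT, hT, by rw [← hcst]; exact h0⟩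
  have h1 := main K K hK hK hr subset_rfl 1 one_pos (by simp)
  have h2 := h1.2 (by norm_num)
  rw [mul_one] at h1
  exact ⟨h1.1, h2⟩

end Pool.Agent.Results.MP_3d065d_co.SolidsOfRevolution
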